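import Mathlib

set_option autoImplicit false

namespace Pool.Agent.H5.RO

open Finset

/-- `w` is `z`-flexible of length `t`: for every set `Z` of at most `z` numbers, `w` is a sum of at
most `t` distinct elements of `A` avoiding `Z`. -/
def Flex (A : Set ℕ) (t z w : ℕ) : Prop :=
  ∀ Z : Finset ℕ, Z.card ≤ z →
    ∃ W : Finset ℕ, (↑W : Set ℕ) ⊆ A ∧ Disjoint W Z ∧ W.card ≤ t ∧ W.sum id = w

theorem Flex.mono {A : Set ℕ} {t z w t' z' : ℕ} (h : Flex A t z w) (ht : t ≤ t') (hz : z' ≤ z) :
    Flex A t' z' w := by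
  intro Z hZ
  obtain ⟨W, h1, h2, h3, h4⟩ := h Z (hZ.trans hz)
  exact ⟨W, h1, h2, h3.trans ht, h4⟩

theorem Flex.zero (A : Set ℕ) (z : ℕ) : Flex A 0 z 0 := by
  intro Z _
  exact ⟨∅, by simp, by simp, by simp, by simp⟩

theorem Flex.add {A : Set ℕ} {t t' z x y : ℕ} (h1 : Flex A t (z + t') x) (h2 : Flex A t' z y) :
    Flex A (t + t') z (x + y) := by
  intro Z hZ
  obtain ⟨W', a1, a2, a3, a4⟩ := h2 Z hZ
  obtain ⟨W, b1, b2, b3, b4⟩ := h1 (Z ∪ W') ((card_union_le _ _).trans (by omega))
  have hd : Disjoint W W' := (disjoint_union_right.mp b2).2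
  refine ⟨W ∪ W', ?_, ?_, ?_, ?_⟩
  · rw [coe_union]; exact Set.union_subset b1 a1
  · rw [disjoint_union_left]; exact ⟨(disjoint_union_right.mp b2).1, a2⟩
  · exact (card_union_le _ _).trans (by omega)
  · rw [sum_union hd, a4, b4]

theorem Flex.nsmul {A : Set ℕ} {t z x : ℕ} (n : ℕ) (h : Flex A t (z + n * t) x) :
    Flex A (n * t) z (n * x) := by
  induction n generalizing z with
  | zero => simpa using Flex.zero A z
  | succ n ih =>
    have e1 : (n + 1) * t = n * t + t := by ring
    have e2 : (n + 1) * x = n * x + x := by ring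
    rw [e1, e2]
    apply Flex.add
    · exact ih (h.mono le_rfl (by rw [e1]; omega))
    · exact h.mono le_rfl (by omega)

/-- sums of several translated elements -/
theorem Flex.multiset {A : Set ℕ} {t z s : ℕ} (M : ℕ) (b : Multiset ℕ)
    (hb : ∀ a ∈ b, Flex A t (z + M * t) (a + s)) (hM : Multiset.card b ≤ M) :
    Flex A (Multiset.card b * t) (z + (M - Multiset.card b) * t)
      (b.sum + Multiset.card b * s) := by
  induction b using Multiset.induction_on with
  | empty => simpa using Flex.zero A _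
  | cons a b ih =>
    have hM' : Multiset.card b + 1 ≤ M := by simpa using hM
    have ih' := ih (fun c hc => hb c (Multiset.mem_cons_of_mem hc)) (by omega)
    have ha := hb a (Multiset.mem_cons_self a b)
    rw [Multiset.card_cons, Multiset.sum_cons]
    set k := Multiset.card b with hk
    obtain ⟨d, hd⟩ : ∃ d, M = k + 1 + d := ⟨M - (k + 1), by omega⟩
    have e3 : M - (k + 1) = d := by omega
    have e4 : M - k = d + 1 := by omega
    rw [e3]
    rw [e4] at ih'
    have e1 : (k + 1) * t = k * t + t := by ring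
    have e2 : a + b.sum + (k + 1) * s = (b.sum + k * s) + (a + s) := by ring
    rw [e1, e2]
    apply Flex.add
    · exact ih'.mono le_rfl (by ring_nf; omega)
    · refine ha.mono le_rfl ?_
      rw [hd]
      nlinarith [Nat.zero_le (k * t)]

theorem Flex.multiset_pad {A : Set ℕ} {t z s : ℕ} (M : ℕ) (b : Multiset ℕ)
    (hb : ∀ a ∈ b, Flex A t (z + M * t) (a + s)) (hs : Flex A t (z + M * t) s)
    (hM : Multiset.card b ≤ M) :
    Flex A (M * t) z (b.sum + M * s) := by
  have h1 := Flex.multiset M b hb hM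
  set k := Multiset.card b with hk
  have h2 : Flex A ((M - k) * t) z ((M - k) * s) :=
    Flex.nsmul (M - k) (hs.mono le_rfl (by
      have : (M - k) * t ≤ M * t := Nat.mul_le_mul_right _ (Nat.sub_le _ _)
      omega))
  have h3 := Flex.add h1 h2
  obtain ⟨d, hd⟩ : ∃ d, M = k + d := ⟨M - k, by omega⟩
  have e3 : M - k = d := by omega
  rw [e3] at h3
  have e1 : M * t = k * t + d * t := by rw [hd]; ring
  have e2 : b.sum + M * s = b.sum + k * s + d * s := by rw [hd]; ring
  rw [e1, e2]
  exact h3

end Pool.Agent.H5.RO
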