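import Mathlib

set_option autoImplicit false

namespace Pool.Agent.H5.RO

open Finset

/-- `s` represents `n` as a sum of at most `h` elements of `A` (repetition allowed). -/
def Rep (A : Set ℕ) (h n : ℕ) (s : Multiset ℕ) : Prop :=
  Multiset.card s ≤ h ∧ (∀ x ∈ s, x ∈ A) ∧ s.sum = n

/-- the excess of a multiset -/
def exc (s : Multiset ℕ) : ℕ := Multiset.card s - s.toFinset.card

theorem exists_min_rep (A : Set ℕ) (h n : ℕ) (hn : ∃ s, Rep A h n s) :
    ∃ s, Rep A h n s ∧ ∀ s', Rep A h n s' → exc s ≤ exc s' := by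
  classical
  have hne : ∃ e, ∃ s, Rep A h n s ∧ exc s = e := by
    obtain ⟨s, hs⟩ := hn
    exact ⟨_, s, hs, rfl⟩
  obtain ⟨s, hs, he⟩ := Nat.find_spec hne
  refine ⟨s, hs, fun s' hs' => ?_⟩
  rw [he]
  exact Nat.find_min' hne ⟨s', hs', rfl⟩

/-- the multiset obtained by removing one copy of every element -/
def red (s : Multiset ℕ) : Multiset ℕ := s - s.toFinset.val

theorem val_add_red (s : Multiset ℕ) : s.toFinset.val + red s = s := by
  unfold red
  exact add_tsub_cancel_of_le (by rw [Multiset.toFinset_val]; exact Multiset.dedup_le s)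

theorem sum_eq_red (s : Multiset ℕ) : s.toFinset.sum id + (red s).sum = s.sum := by
  conv_rhs => rw [← val_add_red s]
  rw [Multiset.sum_add]
  congr 1
  simp [Finset.sum]

theorem card_eq_red (s : Multiset ℕ) :
    s.toFinset.card + Multiset.card (red s) = Multiset.card s := by
  conv_rhs => rw [← val_add_red s]
  rw [Multiset.card_add]
  rfl

theorem mem_of_mem_red {s : Multiset ℕ} {a : ℕ} (ha : a ∈ red s) : a ∈ s := by
  rw [← val_add_red s]
  exact Multiset.mem_add.mpr (Or.inr ha)

theorem red_subset {A : Set ℕ} {h x y : ℕ} {sx sy : Multiset ℕ} (hx : Rep A h x sx)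
    (hmin : ∀ s', Rep A h x s' → exc sx ≤ exc s') (hy : Rep A h y sy)
    (heq : sx.toFinset.sum id = sy.toFinset.sum id)
    (hcard : sy.toFinset.card ≤ sx.toFinset.card) : (red sx).toFinset ⊆ sy.toFinset := by
  classical
  intro a ha
  by_contra hna
  rw [Multiset.mem_toFinset] at ha
  set m := sy.toFinset.val + red sx with hm
  have hrep : Rep A h x m := by
    refine ⟨?_, ?_, ?_⟩
    · have h1 := card_eq_red sx
      have h2 : Multiset.card m = sy.toFinset.card + Multiset.card (red sx) := by
        rw [hm, Multiset.card_add]; rfl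
      have h3 := hx.1
      omega
    · intro b hb
      rcases Multiset.mem_add.mp hb with hb | hb
      · exact hy.2.1 b (by simpa using hb)
      · exact hx.2.1 b (mem_of_mem_red hb)
    · rw [hm, Multiset.sum_add]
      have h1 := sum_eq_red sx
      have h2 : sy.toFinset.val.sum = sy.toFinset.sum id := by simp [Finset.sum]
      rw [h2, ← heq, h1]
      exact hx.2.2
  have h1 := hmin m hrep
  have h2 : Multiset.card m = sy.toFinset.card + Multiset.card (red sx) := by
    rw [hm, Multiset.card_add]; rfl
  have h3 : sy.toFinset.card + 1 ≤ m.toFinset.card := by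
    have : insert a sy.toFinset ⊆ m.toFinset := by
      intro b hb
      rw [Multiset.mem_toFinset, hm, Multiset.mem_add]
      rcases mem_insert.mp hb with rfl | hb
      · exact Or.inr ha
      · exact Or.inl hb
    have h4 := card_le_card this
    rwa [card_insert_of_notMem hna] at h4
  have h5 : exc sx = Multiset.card (red sx) := by
    unfold exc
    have := card_eq_red sx
    omega
  have h6 : 1 ≤ Multiset.card (red sx) := Multiset.card_pos_iff_exists_mem.mpr ⟨a, ha⟩
  unfold exc at h1 h5
  omega

theorem card_sums_le (L : Finset ℕ) (h v : ℕ) (X : Finset ℕ)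
    (hX : ∀ x ∈ X, ∃ r : Multiset ℕ, Multiset.card r ≤ h ∧ r.toFinset ⊆ L ∧ x = v + r.sum) :
    X.card ≤ (h + 1) ^ L.card := by
  classical
  have key : X ⊆ (Finset.univ : Finset (L → Fin (h + 1))).image
      (fun g => v + ∑ a : L, ((g a : ℕ) * (a : ℕ))) := by
    intro x hx
    obtain ⟨r, hr1, hr2, hr3⟩ := hX x hx
    rw [mem_image]
    refine ⟨fun a => ⟨r.count (a : ℕ), ?_⟩, mem_univ _, ?_⟩
    · have := Multiset.count_le_card (a : ℕ) r
      omega
    · rw [hr3, Finset.sum_multiset_count_of_subset r L hr2]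
      congr 1
      rw [← Finset.sum_coe_sort L (fun i => r.count i • i)]
      simp
  calc X.card ≤ _ := card_le_card key
    _ ≤ (Finset.univ : Finset (L → Fin (h + 1))).card := card_image_le
    _ = (h + 1) ^ L.card := by simp

open Classical in
/-- Lemma 1: restricted sums of at most `h` elements have positive lower density. -/
theorem restricted_dense (A : Set ℕ) (h n0 : ℕ) (hA : ∀ n ≥ n0, ∃ s, Rep A h n s) (N : ℕ) :
    N + 1 - n0 ≤ (h + 1) ^ h * ((range (N + 1)).filter
      (fun v => ∃ W : Finset ℕ, (↑W : Set ℕ) ⊆ A ∧ W.card ≤ h ∧ W.sum id = v)).card := by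
  classical
  have hex : ∀ n, ∃ s, n0 ≤ n → (Rep A h n s ∧ ∀ s', Rep A h n s' → exc s ≤ exc s') := by
    intro n
    by_cases hn : n0 ≤ n
    · obtain ⟨s, hs⟩ := exists_min_rep A h n (hA n hn)
      exact ⟨s, fun _ => hs⟩
    · exact ⟨0, fun h => absurd h hn⟩
  choose m hm using hex
  set R := (range (N + 1)).filter
      (fun v => ∃ W : Finset ℕ, (↑W : Set ℕ) ⊆ A ∧ W.card ≤ h ∧ W.sum id = v) with hR
  have hmaps : ∀ x ∈ Finset.Icc n0 N, (m x).toFinset.sum id ∈ R := by
    intro x hx
    rw [Finset.mem_Icc] at hx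
    have h1 := (hm x hx.1).1
    rw [hR, mem_filter, mem_range]
    have h2 := sum_eq_red (m x)
    have h3 := h1.2.2
    refine ⟨by omega, (m x).toFinset, ?_, ?_, rfl⟩
    · intro a ha
      exact h1.2.1 a (by simpa using ha)
    · have := card_eq_red (m x)
      have := h1.1
      omega
  have hcount := Finset.card_le_mul_card_image_of_maps_to hmaps ((h + 1) ^ h) (by
    intro v _
    rcases Finset.eq_empty_or_nonempty
      ({x ∈ Finset.Icc n0 N | (m x).toFinset.sum id = v}) with he | hne
    · rw [he]; simp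
    · obtain ⟨y, hy, hymin⟩ := Finset.exists_min_image _ (fun x => (m x).toFinset.card) hne
      rw [mem_filter, Finset.mem_Icc] at hy
      have hycard : (m y).toFinset.card ≤ h := by
        have := card_eq_red (m y)
        have := (hm y hy.1.1).1.1
        omega
      refine (card_sums_le (m y).toFinset h v _ ?_).trans
        (Nat.pow_le_pow_right (Nat.succ_pos h) hycard)
      intro x hx
      have hx' := hx
      rw [mem_filter, Finset.mem_Icc] at hx
      refine ⟨red (m x), ?_, ?_, ?_⟩
      · have := card_eq_red (m x)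
        have := (hm x hx.1.1).1.1
        omega
      · exact red_subset (hm x hx.1.1).1 (hm x hx.1.1).2 (hm y hy.1.1).1
          (by rw [hx.2, hy.2]) (hymin x hx')
      · have h1 := sum_eq_red (m x)
        rw [hx.2, (hm x hx.1.1).1.2.2] at h1
        exact h1.symm)
  rw [Nat.card_Icc] at hcount
  exact hcount

end Pool.Agent.H5.RO
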