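import Mathlib
import Pool.Agent.H5.RO1
import Pool.Agent.H5.RO2

set_option autoImplicit false

namespace Pool.Agent.H5.RO

open Finset

/-- a dense set of restricted sums, with chosen representations -/
def Good (A : Set ℕ) (h N q : ℕ) (X : Finset ℕ) (P : ℕ → Finset ℕ) : Prop :=
  X ⊆ range (N + 1) ∧ N ≤ q * X.card ∧
    ∀ x ∈ X, (↑(P x) : Set ℕ) ⊆ A ∧ (P x).card ≤ h ∧ (P x).sum id = x

theorem kernel (A : Set ℕ) (f : ℕ → ℕ) : ∀ h q : ℕ, ∃ Q : ℕ, ∀ (N : ℕ) (X : Finset ℕ)
    (P : ℕ → Finset ℕ), Good A h N q X P → ∃ q' ≤ Q, ∃ (X' : Finset ℕ) (P' : ℕ → Finset ℕ),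
      Good A h N q' X' P' ∧ ∀ a, f q' * (X'.filter (fun x => a ∈ P' x)).card ≤ N := by
  classical
  intro h
  induction h with
  | zero =>
    intro q
    refine ⟨q, fun N X P hG => ⟨q, le_rfl, X, P, hG, fun a => ?_⟩⟩
    have : X.filter (fun x => a ∈ P x) = ∅ := by
      apply filter_eq_empty_iff.mpr
      intro x hx ha
      have h1 := (hG.2.2 x hx).2.1
      have h2 : P x = ∅ := by
        rw [← card_eq_zero]; omega
      rw [h2] at ha
      simp at ha
    rw [this]; simp
  | succ h ih =>
    intro q
    obtain ⟨Q1, hQ1⟩ := ih (f q)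
    refine ⟨max q Q1, fun N X P hG => ?_⟩
    by_cases hall : ∀ a, f q * (X.filter (fun x => a ∈ P x)).card ≤ N
    · exact ⟨q, le_max_left _ _, X, P, hG, hall⟩
    · push Not at hall
      obtain ⟨a, ha⟩ := hall
      set Xa := X.filter (fun x => a ∈ P x) with hXa
      have hle : ∀ x ∈ Xa, a ≤ x := by
        intro x hx
        rw [hXa, mem_filter] at hx
        have h1 := (hG.2.2 x hx.1).2.2
        have h2 := Finset.single_le_sum (f := (id : ℕ → ℕ)) (fun i _ => Nat.zero_le _) hx.2
        rw [h1] at h2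
        exact h2
      have hinj : Set.InjOn (fun x => x - a) (Xa : Set ℕ) := by
        intro x hx y hy hxy
        have h1 := hle x hx
        have h2 := hle y hy
        simp only at hxy
        omega
      have hG' : Good A h N (f q) (Xa.image (fun x => x - a)) (fun y => (P (y + a)).erase a) := by
        refine ⟨?_, ?_, ?_⟩
        · intro y hy
          rw [mem_image] at hy
          obtain ⟨x, hx, rfl⟩ := hy
          rw [hXa, mem_filter] at hx
          have := hG.1 hx.1
          rw [mem_range] at this ⊢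
          omega
        · rw [card_image_of_injOn hinj]
          exact ha.le
        · intro y hy
          rw [mem_image] at hy
          obtain ⟨x, hx, rfl⟩ := hy
          have h1 := hle x hx
          rw [hXa, mem_filter] at hx
          have h2 : x - a + a = x := by omega
          simp only [h2]
          obtain ⟨g1, g2, g3⟩ := hG.2.2 x hx.1
          refine ⟨?_, ?_, ?_⟩
          · intro b hb
            exact g1 (by
              have := Finset.mem_coe.mp hb
              exact Finset.mem_coe.mpr (mem_of_mem_erase this))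
          · rw [card_erase_of_mem hx.2]; omega
          · have h3 := Finset.sum_erase_add (P x) (id : ℕ → ℕ) hx.2
            rw [g3] at h3
            simp only [id] at h3 ⊢
            omega
      obtain ⟨q', hq', X', P', hG'', hpop⟩ := hQ1 N _ _ hG'
      refine ⟨q', hq'.trans (le_max_right _ _), X', P', ?_, hpop⟩
      refine ⟨hG''.1, hG''.2.1, fun x hx => ?_⟩
      obtain ⟨g1, g2, g3⟩ := hG''.2.2 x hx
      exact ⟨g1, g2.trans (Nat.le_succ _), g3⟩

open Classical in
/-- the flexible numbers up to `N` -/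
noncomputable def FS (A : Set ℕ) (t z N : ℕ) : Finset ℕ :=
  (range (N + 1)).filter (fun w => Flex A t z w)

/-- The counting step: unpopular representations give many flexible numbers. -/
theorem flex_of_good (A : Set ℕ) (h M q z f : ℕ) (X : Finset ℕ) (P : ℕ → Finset ℕ)
    (hM : 1 ≤ M) (hG : Good A h M q X P)
    (hpop : ∀ a, f * (X.filter (fun x => a ∈ P x)).card ≤ M)
    (hf1 : 24 * z * q ^ 2 ≤ f) (hf2 : 2 * h * q ≤ f) (hf3 : 1 ≤ f) :
    M ≤ 4 * q * (FS A (2 * h) z (2 * M)).card := by
  classical
  set x := X.card with hx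
  obtain ⟨g1, g2, g3⟩ := hG
  -- good pairs
  set G := (X ×ˢ X).filter (fun p => Disjoint (P p.1) (P p.2)) with hGdef
  set B := (X ×ˢ X).filter (fun p => ¬ Disjoint (P p.1) (P p.2)) with hBdef
  have hGB : G.card + B.card = x ^ 2 := by
    rw [hGdef, hBdef, Finset.card_filter_add_card_filter_not, card_product, sq]
  have hB : f * B.card ≤ x * (h * M) := by
    have h1 : B.card ≤ ∑ u ∈ X, ∑ a ∈ P u, (X.filter (fun y => a ∈ P y)).card := by
      have h2 : B ⊆ X.biUnion (fun u => (P u).biUnion (fun a =>
          (X.filter (fun y => a ∈ P y)).image (fun y => (u, y)))) := by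
        rintro ⟨u, v⟩ huv
        rw [hBdef, mem_filter, mem_product] at huv
        obtain ⟨⟨hu, hv⟩, hd⟩ := huv
        rw [Finset.not_disjoint_iff] at hd
        obtain ⟨a, ha1, ha2⟩ := hd
        simp only [mem_biUnion, mem_image, mem_filter, Prod.mk.injEq]
        exact ⟨u, hu, a, ha1, v, ⟨hv, ha2⟩, rfl, rfl⟩
      refine (card_le_card h2).trans ?_
      refine card_biUnion_le.trans ?_
      refine Finset.sum_le_sum (fun u _ => ?_)
      refine card_biUnion_le.trans ?_
      exact Finset.sum_le_sum (fun a _ => card_image_le)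
    calc f * B.card ≤ f * ∑ u ∈ X, ∑ a ∈ P u, (X.filter (fun y => a ∈ P y)).card :=
          Nat.mul_le_mul_left _ h1
      _ = ∑ u ∈ X, ∑ a ∈ P u, f * (X.filter (fun y => a ∈ P y)).card := by
          rw [Finset.mul_sum]
          exact Finset.sum_congr rfl (fun u _ => by rw [Finset.mul_sum])
      _ ≤ ∑ u ∈ X, ∑ a ∈ P u, M :=
          Finset.sum_le_sum (fun u _ => Finset.sum_le_sum (fun a _ => hpop a))
      _ = ∑ u ∈ X, (P u).card * M := by
          exact Finset.sum_congr rfl (fun u _ => by rw [sum_const, smul_eq_mul])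
      _ ≤ ∑ _u ∈ X, h * M :=
          Finset.sum_le_sum (fun u hu => Nat.mul_le_mul_right _ (g3 u hu).2.1)
      _ = x * (h * M) := by rw [sum_const, smul_eq_mul]
  -- fibres
  set F := FS A (2 * h) z (2 * M) with hF
  have hmaps : ∀ p ∈ G, p.1 + p.2 ∈ range (2 * M + 1) := by
    intro p hp
    rw [hGdef, mem_filter, mem_product] at hp
    have h1 := g1 hp.1.1
    have h2 := g1 hp.1.2
    rw [mem_range] at *
    omega
  have hfib : G.card = ∑ w ∈ range (2 * M + 1), (G.filter (fun p => p.1 + p.2 = w)).card :=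
    Finset.card_eq_sum_card_fiberwise hmaps
  have hfibF : ∀ w, (G.filter (fun p => p.1 + p.2 = w)).card ≤ x := by
    intro w
    have hinj : Set.InjOn Prod.fst ((G.filter (fun p => p.1 + p.2 = w) : Finset (ℕ × ℕ)) : Set (ℕ × ℕ)) := by
      rintro ⟨a, b⟩ hab ⟨c, d⟩ hcd hac
      simp only [coe_filter, Set.mem_ofPred_eq] at hab hcd hac
      ext <;> simp <;> omega
    refine card_le_card_of_injOn Prod.fst ?_ hinj
    intro p hp
    rw [coe_filter, Set.mem_ofPred_eq] at hp
    have := hp.1
    rw [hGdef, mem_filter, mem_product] at this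
    exact this.1.1
  have hfibN : ∀ w ∈ range (2 * M + 1), w ∉ F →
      f * (G.filter (fun p => p.1 + p.2 = w)).card ≤ 2 * (z * M) := by
    intro w hw hwF
    have hnf : ¬ Flex A (2 * h) z w := by
      intro hfl
      apply hwF
      rw [hF]
      unfold FS
      rw [mem_filter]
      exact ⟨hw, hfl⟩
    unfold Flex at hnf
    push Not at hnf
    obtain ⟨Z, hZ, hZ2⟩ := hnf
    have hsub : (G.filter (fun p => p.1 + p.2 = w)) ⊆
        Z.biUnion (fun a => (X.filter (fun y => a ∈ P y)).image (fun y => (y, w - y)) ∪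
          (X.filter (fun y => a ∈ P y)).image (fun y => (w - y, y))) := by
      rintro ⟨u, v⟩ huv
      rw [mem_filter, hGdef, mem_filter, mem_product] at huv
      obtain ⟨⟨⟨hu, hv⟩, hd⟩, hs⟩ := huv
      simp only at hu hv hd hs
      have hnd : ¬ Disjoint (P u ∪ P v) Z := by
        intro hdis
        refine hZ2 (P u ∪ P v) ?_ hdis ?_ ?_
        · rw [coe_union]
          exact Set.union_subset (g3 u hu).1 (g3 v hv).1
        · refine (card_union_le _ _).trans ?_
          have := (g3 u hu).2.1
          have := (g3 v hv).2.1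
          omega
        · rw [sum_union hd, (g3 u hu).2.2, (g3 v hv).2.2, hs]
      rw [Finset.not_disjoint_iff] at hnd
      obtain ⟨a, ha1, ha2⟩ := hnd
      simp only [mem_biUnion, mem_union, mem_image, mem_filter, Prod.mk.injEq]
      refine ⟨a, ha2, ?_⟩
      rcases mem_union.mp ha1 with ha | ha
      · left; exact ⟨u, ⟨hu, ha⟩, rfl, by omega⟩
      · right; exact ⟨v, ⟨hv, ha⟩, by omega, rfl⟩
    have h1 : (G.filter (fun p => p.1 + p.2 = w)).card ≤
        ∑ a ∈ Z, 2 * (X.filter (fun y => a ∈ P y)).card := by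
      refine (card_le_card hsub).trans ?_
      refine card_biUnion_le.trans ?_
      refine Finset.sum_le_sum (fun a _ => ?_)
      refine (card_union_le _ _).trans ?_
      have h3 := card_image_le (s := X.filter (fun y => a ∈ P y)) (f := fun y => (y, w - y))
      have h4 := card_image_le (s := X.filter (fun y => a ∈ P y)) (f := fun y => (w - y, y))
      omega
    calc f * (G.filter (fun p => p.1 + p.2 = w)).card
        ≤ f * ∑ a ∈ Z, 2 * (X.filter (fun y => a ∈ P y)).card := Nat.mul_le_mul_left _ h1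
      _ = ∑ a ∈ Z, 2 * (f * (X.filter (fun y => a ∈ P y)).card) := by
          rw [Finset.mul_sum]
          exact Finset.sum_congr rfl (fun a _ => by ring)
      _ ≤ ∑ _a ∈ Z, 2 * M := Finset.sum_le_sum (fun a _ => Nat.mul_le_mul_left _ (hpop a))
      _ = Z.card * (2 * M) := by rw [sum_const, smul_eq_mul]
      _ ≤ z * (2 * M) := Nat.mul_le_mul_right _ hZ
      _ = 2 * (z * M) := by ring
  have hFsub : F ⊆ range (2 * M + 1) := by rw [hF]; exact filter_subset _ _
  have hGle : f * G.card ≤ f * (F.card * x) + (2 * M + 1) * (2 * (z * M)) := by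
    rw [hfib, ← Finset.sum_filter_add_sum_filter_not (range (2 * M + 1)) (fun w => w ∈ F), mul_add]
    apply add_le_add
    · apply Nat.mul_le_mul_left
      calc ∑ w ∈ (range (2 * M + 1)).filter (fun w => w ∈ F),
            (G.filter (fun p => p.1 + p.2 = w)).card
          ≤ ∑ _w ∈ (range (2 * M + 1)).filter (fun w => w ∈ F), x :=
            Finset.sum_le_sum (fun w _ => hfibF w)
        _ = ((range (2 * M + 1)).filter (fun w => w ∈ F)).card * x := by
            rw [sum_const, smul_eq_mul]
        _ ≤ F.card * x := by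
            apply Nat.mul_le_mul_right
            apply card_le_card
            intro w hw
            exact (mem_filter.mp hw).2
    · rw [Finset.mul_sum]
      calc ∑ w ∈ (range (2 * M + 1)).filter (fun w => w ∉ F),
            f * (G.filter (fun p => p.1 + p.2 = w)).card
          ≤ ∑ _w ∈ (range (2 * M + 1)).filter (fun w => w ∉ F), 2 * (z * M) := by
            refine Finset.sum_le_sum (fun w hw => ?_)
            rw [mem_filter] at hw
            exact hfibN w hw.1 hw.2
        _ = ((range (2 * M + 1)).filter (fun w => w ∉ F)).card * (2 * (z * M)) := by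
            rw [sum_const, smul_eq_mul]
        _ ≤ (2 * M + 1) * (2 * (z * M)) := by
            apply Nat.mul_le_mul_right
            refine (card_filter_le _ _).trans ?_
            rw [card_range]
  -- arithmetic
  have hMq : M ≤ q * x := g2
  have hx1 : 1 ≤ x := by
    rcases Nat.eq_zero_or_pos x with h0 | h0
    · rw [h0] at hMq; omega
    · exact h0
  -- 2 * B.card ≤ x^2
  have hB2 : f * (2 * B.card) ≤ f * x ^ 2 := by
    calc f * (2 * B.card) = 2 * (f * B.card) := by ring
      _ ≤ 2 * (x * (h * M)) := Nat.mul_le_mul_left _ hB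
      _ ≤ 2 * (x * (h * (q * x))) := by gcongr
      _ = (2 * h * q) * x ^ 2 := by ring
      _ ≤ f * x ^ 2 := Nat.mul_le_mul_right _ hf2
  have hB3 : 2 * B.card ≤ x ^ 2 := Nat.le_of_mul_le_mul_left hB2 hf3
  have hG3 : x ^ 2 ≤ 2 * G.card := by omega
  have h5 : (2 * M + 1) * (2 * (z * M)) ≤ 6 * z * M ^ 2 := by nlinarith [Nat.zero_le (z * M)]
  have h6 : 4 * (6 * z * M ^ 2) ≤ f * x ^ 2 := by
    calc 4 * (6 * z * M ^ 2) ≤ 4 * (6 * z * (q * x) ^ 2) := by gcongr
      _ = (24 * z * q ^ 2) * x ^ 2 := by ring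
      _ ≤ f * x ^ 2 := Nat.mul_le_mul_right _ hf1
  have h7 : f * x ^ 2 ≤ 2 * (f * G.card) := by nlinarith
  have h8 : f * x ^ 2 ≤ f * (4 * (F.card * x)) := by nlinarith
  have h9 : x ^ 2 ≤ 4 * (F.card * x) := Nat.le_of_mul_le_mul_left h8 hf3
  have h10 : x ≤ 4 * F.card := by
    have : x * x ≤ x * (4 * F.card) := by nlinarith
    exact Nat.le_of_mul_le_mul_left this hx1
  calc M ≤ q * x := hMq
    _ ≤ q * (4 * F.card) := Nat.mul_le_mul_left _ h10
    _ = 4 * q * F.card := by ring

end Pool.Agent.H5.RO
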