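import Mathlib
import Pool.Agent.H5.RO3

set_option autoImplicit false

namespace Pool.Agent.H5.RO

open Finset

theorem mem_FS {A : Set ℕ} {t z N w : ℕ} : w ∈ FS A t z N ↔ w ≤ N ∧ Flex A t z w := by
  classical
  unfold FS
  rw [mem_filter, mem_range]
  constructor
  · rintro ⟨h1, h2⟩; exact ⟨by omega, h2⟩
  · rintro ⟨h1, h2⟩; exact ⟨by omega, h2⟩

theorem FS_mono {A : Set ℕ} {t z N t' z' N' : ℕ} (ht : t ≤ t') (hz : z' ≤ z) (hN : N ≤ N') :
    FS A t z N ⊆ FS A t' z' N' := by
  intro w hw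
  rw [mem_FS] at hw ⊢
  exact ⟨hw.1.trans hN, hw.2.mono ht hz⟩

/-- Lemma F: for any function `Zf`, at every scale the `Zf q`-flexible numbers have density
at least `1/q` for some bounded `q`. -/
theorem flex_dense (A : Set ℕ) (h n0 : ℕ) (hA : ∀ n ≥ n0, ∃ s, Rep A h n s) (Zf : ℕ → ℕ) :
    ∃ Q N0 : ℕ, ∀ N ≥ N0, ∃ q ≤ Q, N ≤ q * (FS A (2 * h) (Zf q) N).card := by
  classical
  set f : ℕ → ℕ := fun q => 24 * Zf (12 * q) * q ^ 2 + 2 * h * q + 1 with hf
  obtain ⟨Q, hQ⟩ := kernel A f h (2 * (h + 1) ^ h)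
  refine ⟨12 * Q, 4 * n0 + 4, fun N hN => ?_⟩
  set M := N / 2 with hM
  have hM1 : 2 * n0 + 2 ≤ M := by omega
  set R := (range (M + 1)).filter
      (fun v => ∃ W : Finset ℕ, (↑W : Set ℕ) ⊆ A ∧ W.card ≤ h ∧ W.sum id = v) with hR
  have hd := restricted_dense A h n0 hA M
  rw [← hR] at hd
  have hPex : ∀ v, ∃ W : Finset ℕ, v ∈ R → ((↑W : Set ℕ) ⊆ A ∧ W.card ≤ h ∧ W.sum id = v) := by
    intro v
    by_cases hv : v ∈ R
    · have := hv
      rw [hR, mem_filter] at this
      obtain ⟨W, hW⟩ := this.2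
      exact ⟨W, fun _ => hW⟩
    · exact ⟨∅, fun h => absurd h hv⟩
  choose P hP using hPex
  have hG : Good A h M (2 * (h + 1) ^ h) R P := by
    refine ⟨filter_subset _ _, ?_, hP⟩
    have : 2 * (h + 1) ^ h * R.card = 2 * ((h + 1) ^ h * R.card) := by ring
    rw [this]
    omega
  obtain ⟨q, hq, X, P', hG', hpop⟩ := hQ M R P hG
  refine ⟨12 * q, by omega, ?_⟩
  have h1 := flex_of_good A h M q (Zf (12 * q)) (f q) X P' (by omega) hG' hpop
    (by rw [hf]; simp only; omega) (by rw [hf]; simp only; omega) (by rw [hf]; simp only; omega)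
  have h2 : (FS A (2 * h) (Zf (12 * q)) (2 * M)).card ≤ (FS A (2 * h) (Zf (12 * q)) N).card :=
    card_le_card (FS_mono le_rfl le_rfl (by omega))
  have h3 : 4 * q * (FS A (2 * h) (Zf (12 * q)) (2 * M)).card ≤
      4 * q * (FS A (2 * h) (Zf (12 * q)) N).card := Nat.mul_le_mul_left _ h2
  have h4 : N ≤ 3 * M := by omega
  calc N ≤ 3 * M := h4
    _ ≤ 3 * (4 * q * (FS A (2 * h) (Zf (12 * q)) N).card) := by omega
    _ = 12 * q * (FS A (2 * h) (Zf (12 * q)) N).card := by ring

/-- Coarse approximation by flexible numbers. -/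
theorem coarse (A : Set ℕ) (h n0 : ℕ) (hA : ∀ n ≥ n0, ∃ s, Rep A h n s) (z p : ℕ) (hp : 1 ≤ p) :
    ∃ t N0 : ℕ, ∀ N ≥ N0, ∀ m ≤ N, ∃ b, Flex A t z b ∧ b ≤ m ∧ p * (m - b) ≤ N := by
  classical
  obtain ⟨Q, N1, hQ⟩ := flex_dense A h n0 hA (fun q => z + (4 * p * q) * (2 * h))
  refine ⟨(4 * p * Q) * (2 * h), p * (N1 + 2 * Q + 2), fun N hN m hm => ?_⟩
  set y := N / p with hy
  have hy1 : N1 + 2 * Q + 2 ≤ y := by
    rw [hy, Nat.le_div_iff_mul_le (by omega)]
    rw [mul_comm]; exact hN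
  obtain ⟨q, hq, hc⟩ := hQ y (by omega)
  have hq1 : 1 ≤ q := by
    rcases Nat.eq_zero_or_pos q with h0 | h0
    · rw [h0] at hc; omega
    · exact h0
  set S := FS A (2 * h) (z + (4 * p * q) * (2 * h)) y with hS
  -- largest element of S
  have hne : S.Nonempty := by
    rw [← card_pos]
    rcases Nat.eq_zero_or_pos S.card with h0 | h0
    · rw [h0] at hc; omega
    · exact h0
  set f := S.max' hne with hfdef
  have hfS : f ∈ S := S.max'_mem hne
  have hcard : S.card ≤ f + 1 := by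
    have : S ⊆ range (f + 1) := by
      intro w hw
      rw [mem_range]
      have := S.le_max' w hw
      omega
    have := card_le_card this
    rwa [card_range] at this
  rw [hS, mem_FS] at hfS
  obtain ⟨hfy, hfl⟩ := hfS
  -- y ≤ 2 q f
  have hyf : y ≤ 2 * q * f := by
    have h1 : y ≤ q * (f + 1) := hc.trans (Nat.mul_le_mul_left _ hcard)
    nlinarith
  have hf1 : 1 ≤ f := by
    rcases Nat.eq_zero_or_pos f with h0 | h0
    · rw [h0] at hyf; omega
    · exact h0
  set j := m / f with hj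
  have hjm : j * f ≤ m := Nat.div_mul_le_self m f
  have hmj : m < j * f + f := by
    have h1 := Nat.div_add_mod m f
    have h2 := Nat.mod_lt m hf1
    rw [hj]
    calc m = f * (m / f) + m % f := h1.symm
      _ < f * (m / f) + f := by omega
      _ = m / f * f + f := by ring
  have hNy : N ≤ 2 * p * y := by
    have h1 := Nat.div_add_mod N p
    have h2 := Nat.mod_lt N hp
    rw [← hy] at h1
    nlinarith
  have hjle : j ≤ 4 * p * q := by
    have h1 : j * f ≤ (4 * p * q) * f := by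
      calc j * f ≤ m := hjm
        _ ≤ N := hm
        _ ≤ 2 * p * y := hNy
        _ ≤ 2 * p * (2 * q * f) := Nat.mul_le_mul_left _ hyf
        _ = (4 * p * q) * f := by ring
    exact Nat.le_of_mul_le_mul_right h1 hf1
  refine ⟨j * f, ?_, hjm, ?_⟩
  · have h1 : Flex A (j * (2 * h)) z (j * f) := by
      apply Flex.nsmul
      refine hfl.mono le_rfl ?_
      have := Nat.mul_le_mul_right (2 * h) hjle
      omega
    refine h1.mono ?_ le_rfl
    calc j * (2 * h) ≤ (4 * p * q) * (2 * h) := Nat.mul_le_mul_right _ hjle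
      _ ≤ (4 * p * Q) * (2 * h) := by gcongr
  · have h1 : m - j * f ≤ f := by omega
    calc p * (m - j * f) ≤ p * f := Nat.mul_le_mul_left _ h1
      _ ≤ p * y := Nat.mul_le_mul_left _ hfy
      _ ≤ N := by rw [hy]; exact Nat.mul_div_le N p

/-- a popular sum -/
theorem popular_sum (Y : Finset ℕ) (N q : ℕ) (hN : 1 ≤ N) (hY : Y ⊆ range (N + 1))
    (hq : N ≤ q * Y.card) :
    ∃ s ≤ 2 * N, N ≤ 3 * q ^ 2 * (Y.filter (fun y => y ≤ s ∧ s - y ∈ Y)).card := by
  classical
  by_contra hcon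
  push Not at hcon
  have hmaps : ∀ p ∈ Y ×ˢ Y, p.1 + p.2 ∈ range (2 * N + 1) := by
    intro p hp
    rw [mem_product] at hp
    have h1 := hY hp.1
    have h2 := hY hp.2
    rw [mem_range] at *
    omega
  have h1 : (Y ×ˢ Y).card =
      ∑ s ∈ range (2 * N + 1), ((Y ×ˢ Y).filter (fun p => p.1 + p.2 = s)).card :=
    Finset.card_eq_sum_card_fiberwise hmaps
  have h2 : ∀ s, ((Y ×ˢ Y).filter (fun p => p.1 + p.2 = s)).card ≤
      (Y.filter (fun y => y ≤ s ∧ s - y ∈ Y)).card := by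
    intro s
    refine card_le_card_of_injOn Prod.fst ?_ ?_
    · rintro ⟨a, b⟩ hab
      simp only [coe_filter, Set.mem_ofPred_eq, mem_product] at hab ⊢
      refine ⟨hab.1.1, by omega, ?_⟩
      have : s - a = b := by omega
      rw [this]; exact hab.1.2
    · rintro ⟨a, b⟩ hab ⟨c, d⟩ hcd hac
      simp only [coe_filter, Set.mem_ofPred_eq] at hab hcd hac
      ext <;> simp <;> omega
  have h3 : 3 * q ^ 2 * (Y ×ˢ Y).card ≤ (2 * N + 1) * (N - 1) := by
    rw [h1, Finset.mul_sum]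
    calc ∑ s ∈ range (2 * N + 1), 3 * q ^ 2 * ((Y ×ˢ Y).filter (fun p => p.1 + p.2 = s)).card
        ≤ ∑ _s ∈ range (2 * N + 1), (N - 1) := by
          refine Finset.sum_le_sum (fun s hs => ?_)
          rw [mem_range] at hs
          have h4 := hcon s (by omega)
          have h5 : 3 * q ^ 2 * ((Y ×ˢ Y).filter (fun p => p.1 + p.2 = s)).card ≤
            3 * q ^ 2 * (Y.filter (fun y => y ≤ s ∧ s - y ∈ Y)).card :=
            Nat.mul_le_mul_left _ (h2 s)
          omega
      _ = (2 * N + 1) * (N - 1) := by rw [sum_const, smul_eq_mul, card_range]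
  rw [card_product] at h3
  have h4 : N * N ≤ (q * Y.card) * (q * Y.card) := Nat.mul_le_mul hq hq
  have h5 : 3 * (N * N) ≤ (2 * N + 1) * (N - 1) := by
    calc 3 * (N * N) ≤ 3 * ((q * Y.card) * (q * Y.card)) := Nat.mul_le_mul_left _ h4
      _ = 3 * q ^ 2 * (Y.card * Y.card) := by ring
      _ ≤ _ := h3
  obtain ⟨n, rfl⟩ : ∃ n, N = n + 1 := ⟨N - 1, by omega⟩
  simp only [Nat.add_sub_cancel] at h5
  nlinarith

/-- Claim A: up to boundedly many exceptions, all `a ∈ A` become flexible after adding one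
fixed number `s`. -/
theorem claimA (A : Set ℕ) (h n0 : ℕ) (hA : ∀ n ≥ n0, ∃ s, Rep A h n s) (z : ℕ) :
    ∃ L N0 : ℕ, ∀ N ≥ N0, ∃ s ≤ 2 * N, Flex A (4 * h + 1) z s ∧
      ∃ E : Finset ℕ, E.card ≤ L ∧ ∀ a ∈ A, a ≤ N → a ∉ E → Flex A (4 * h + 1) z (a + s) := by
  classical
  obtain ⟨Q, N0, hQ⟩ := flex_dense A h n0 hA (fun _ => z + 2 * h + 1)
  refine ⟨(z + 2 * h + 2) * (9 * Q ^ 2), N0 + 1, fun N hN => ?_⟩
  obtain ⟨q, hq, hc⟩ := hQ N (by omega)
  set Y := FS A (2 * h) (z + 2 * h + 1) N with hY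
  have hYr : Y ⊆ range (N + 1) := by
    intro w hw
    rw [hY, mem_FS] at hw
    rw [mem_range]; omega
  obtain ⟨s, hs, hpop⟩ := popular_sum Y N q (by omega) hYr hc
  set Y' := Y.filter (fun y => y ≤ s ∧ s - y ∈ Y) with hY'
  have hYfl : ∀ y ∈ Y, Flex A (2 * h) (z + 2 * h + 1) y := by
    intro y hy
    rw [hY, mem_FS] at hy
    exact hy.2
  have hne : Y'.Nonempty := by
    rw [← card_pos]
    rcases Nat.eq_zero_or_pos Y'.card with h0 | h0
    · rw [h0] at hpop; omega
    · exact h0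
  refine ⟨s, hs, ?_, ?_⟩
  · obtain ⟨y, hy⟩ := hne
    rw [hY', mem_filter] at hy
    have h1 : Flex A (2 * h + 2 * h) z (y + (s - y)) := by
      apply Flex.add
      · exact (hYfl y hy.1).mono le_rfl (by omega)
      · exact (hYfl _ hy.2.2).mono le_rfl (by omega)
    have h2 : y + (s - y) = s := by omega
    rw [h2] at h1
    exact h1.mono (by omega) le_rfl
  · set E := (range (N + 1)).filter (fun a => a ∈ A ∧ ¬ Flex A (4 * h + 1) z (a + s)) with hE
    refine ⟨E, ?_, ?_⟩
    · -- the counting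
      by_contra hcon
      push Not at hcon
      have hmaps : ∀ p ∈ E ×ˢ Y', p.1 + p.2 ∈ range (2 * N + 1) := by
        intro p hp
        rw [mem_product, hE, mem_filter, mem_range, hY', mem_filter] at hp
        have h2 := hYr hp.2.1
        rw [mem_range] at *
        omega
      have hlt : (range (2 * N + 1)).card * (z + 2 * h + 1) < (E ×ˢ Y').card := by
        rw [card_range, card_product]
        have hE1 : 1 ≤ E.card := by omega
        have hq2 : q ^ 2 ≤ Q ^ 2 := Nat.pow_le_pow_left hq 2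
        have h1 : 3 * N * (z + 2 * h + 2) * (3 * Q ^ 2) < E.card * Y'.card * (3 * Q ^ 2) := by
          calc 3 * N * (z + 2 * h + 2) * (3 * Q ^ 2) = N * ((z + 2 * h + 2) * (9 * Q ^ 2)) := by ring
            _ < N * E.card := Nat.mul_lt_mul_of_pos_left hcon (by omega)
            _ ≤ (3 * q ^ 2 * Y'.card) * E.card := Nat.mul_le_mul_right _ hpop
            _ ≤ (3 * Q ^ 2 * Y'.card) * E.card := by gcongr
            _ = E.card * Y'.card * (3 * Q ^ 2) := by ring
        have h2 : 3 * N * (z + 2 * h + 2) < E.card * Y'.card := Nat.lt_of_mul_lt_mul_right h1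
        have h3 : (2 * N + 1) * (z + 2 * h + 1) ≤ 3 * N * (z + 2 * h + 2) := by
          apply Nat.mul_le_mul <;> omega
        omega
      obtain ⟨w, hw, hfib⟩ := Finset.exists_lt_card_fiber_of_mul_lt_card_of_maps_to hmaps hlt
      set Λ := (E ×ˢ Y').filter (fun p => p.1 + p.2 = w) with hΛ
      -- w is flexible
      have hwfl : Flex A (2 * h + 1) (z + 2 * h) w := by
        intro Z hZ
        have hex : ∃ p ∈ Λ, p.1 ∉ Z := by
          by_contra hno
          push Not at hno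
          have : Λ.card ≤ Z.card := by
            refine card_le_card_of_injOn Prod.fst (fun p hp => hno p hp) ?_
            rintro ⟨a, b⟩ hab ⟨c, d⟩ hcd hac
            simp only [hΛ, coe_filter, Set.mem_ofPred_eq] at hab hcd hac
            ext <;> simp <;> omega
          omega
        obtain ⟨⟨a, y⟩, hp, haZ⟩ := hex
        rw [hΛ, mem_filter, mem_product, hE, mem_filter, hY', mem_filter] at hp
        simp only at hp haZ
        obtain ⟨⟨⟨_, haA, _⟩, ⟨hyY, _, _⟩⟩, hsum⟩ := hp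
        obtain ⟨W, w1, w2, w3, w4⟩ := hYfl y hyY (insert a Z)
          ((card_insert_le _ _).trans (by omega))
        rw [disjoint_insert_right] at w2
        refine ⟨insert a W, ?_, ?_, ?_, ?_⟩
        · rw [coe_insert]
          exact Set.insert_subset haA w1
        · rw [disjoint_insert_left]
          exact ⟨haZ, w2.2⟩
        · exact (card_insert_le _ _).trans (by omega)
        · rw [sum_insert w2.1, w4, ← hsum]; rfl
      have hne2 : Λ.Nonempty := by
        rw [← card_pos]; omega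
      obtain ⟨⟨a, y⟩, hp⟩ := hne2
      rw [hΛ, mem_filter, mem_product, hE, mem_filter, hY', mem_filter] at hp
      simp only at hp
      obtain ⟨⟨⟨_, haA, hbad⟩, ⟨hyY, hys, hsy⟩⟩, hsum⟩ := hp
      apply hbad
      have h1 : Flex A (2 * h + 1 + 2 * h) z (w + (s - y)) := by
        apply Flex.add
        · exact hwfl
        · exact (hYfl _ hsy).mono le_rfl (by omega)
      have h2 : w + (s - y) = a + s := by omega
      rw [h2] at h1
      exact h1.mono (by omega) le_rfl
    · intro a haA haN haE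
      by_contra hnf
      apply haE
      rw [hE, mem_filter, mem_range]
      exact ⟨by omega, haA, hnf⟩

/-- Claim C. -/
theorem claimC (A : Set ℕ) (t z c0 q N : ℕ) (Δ : Finset ℕ) (hN : 1 ≤ N)
    (hΔ : Δ ⊆ range (N + 1)) (hq : N ≤ q * Δ.card)
    (hfl : ∀ δ ∈ Δ, Flex A t (z + 2 * t * ((9 * q ^ 2).factorial + 1)) (δ + c0)) :
    ∃ s ≤ 2 * N, ∀ u, 9 * q ^ 2 * u ≤ N →
      Flex A (2 * t * (9 * q ^ 2).factorial) z
        ((9 * q ^ 2).factorial * (s + 2 * c0) + (9 * q ^ 2).factorial * u) := by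
  classical
  set k := 9 * q ^ 2 with hk
  set D := k.factorial with hD
  obtain ⟨s, hs, hpop⟩ := popular_sum Δ N q hN hΔ hq
  refine ⟨s, hs, fun u hu => ?_⟩
  set Δ' := Δ.filter (fun y => y ≤ s ∧ s - y ∈ Δ) with hΔ'
  have hΔ'pos : 1 ≤ Δ'.card := by
    rcases Nat.eq_zero_or_pos Δ'.card with h0 | h0
    · rw [h0] at hpop; omega
    · exact h0
  have hD1 : 1 ≤ D := Nat.factorial_pos k
  -- base point flexible
  have hsum : ∀ x ∈ Δ, ∀ y ∈ Δ, Flex A (2 * t) (z + (2 * t) * D) (x + y + 2 * c0) := by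
    intro x hx y hy
    have h1 : Flex A (t + t) (z + (2 * t) * D) ((x + c0) + (y + c0)) := by
      have hx' := hfl x hx
      have hy' := hfl y hy
      apply Flex.add
      · refine hx'.mono le_rfl ?_
        nlinarith
      · refine hy'.mono le_rfl ?_
        nlinarith
    have e2 : (x + c0) + (y + c0) = x + y + 2 * c0 := by ring
    rw [e2] at h1
    exact h1.mono (by omega) le_rfl
  have hbase : Flex A (2 * t) (z + (2 * t) * D) (s + 2 * c0) := by
    obtain ⟨x, hx⟩ := card_pos.mp hΔ'pos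
    rw [hΔ', mem_filter] at hx
    have h1 := hsum x hx.1 (s - x) hx.2.2
    have e : x + (s - x) = s := by omega
    rwa [e] at h1
  -- pigeonhole
  have hmaps : ∀ p ∈ Δ' ×ˢ range (k + 1), p.1 + p.2 * u ∈ range (2 * N + 1) := by
    intro p hp
    rw [mem_product, hΔ', mem_filter, mem_range] at hp
    have h1 := hΔ hp.1.1
    rw [mem_range] at *
    have h2 : p.2 * u ≤ k * u := Nat.mul_le_mul_right _ (by omega)
    omega
  have hlt : (range (2 * N + 1)).card < (Δ' ×ˢ range (k + 1)).card := by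
    rw [card_range, card_product, card_range]
    have h1 : 3 * N ≤ Δ'.card * k := by
      calc 3 * N ≤ 3 * (3 * q ^ 2 * Δ'.card) := Nat.mul_le_mul_left _ hpop
        _ = Δ'.card * k := by rw [hk]; ring
    have h2 : Δ'.card * (k + 1) = Δ'.card * k + Δ'.card := by ring
    omega
  obtain ⟨p1, hp1, p2, hp2, hne, heq⟩ :=
    Finset.exists_ne_map_eq_of_card_lt_of_maps_to hlt hmaps
  have hkey : ∃ j, 1 ≤ j ∧ j ≤ k ∧ Flex A (2 * t) (z + (2 * t) * D) (s + 2 * c0 + j * u) := by
    have aux : ∀ x y i j : ℕ, x ∈ Δ' → y ∈ Δ' → i < j → j ≤ k → x + i * u = y + j * u →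
        ∃ j, 1 ≤ j ∧ j ≤ k ∧ Flex A (2 * t) (z + (2 * t) * D) (s + 2 * c0 + j * u) := by
      intro x y i j hx hy hij hjk he
      refine ⟨j - i, by omega, by omega, ?_⟩
      rw [hΔ', mem_filter] at hx hy
      have h1 := hsum x hx.1 (s - y) hy.2.2
      obtain ⟨d, hd⟩ : ∃ d, j = i + d := ⟨j - i, by omega⟩
      have e1 : j - i = d := by omega
      rw [e1]
      have e2 : x = y + d * u := by
        rw [hd, add_mul] at he; omega
      have e3 : x + (s - y) + 2 * c0 = s + 2 * c0 + d * u := by omega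
      rwa [e3] at h1
    obtain ⟨x, i⟩ := p1
    obtain ⟨y, j⟩ := p2
    rw [mem_product, mem_range] at hp1 hp2
    simp only at hp1 hp2 heq
    rcases lt_trichotomy i j with hij | hij | hij
    · exact aux x y i j hp1.1 hp2.1 hij (by omega) heq
    · exfalso
      apply hne
      rw [hij] at heq ⊢
      have : x = y := by omega
      rw [this]
    · exact aux y x j i hp2.1 hp1.1 hij (by omega) heq.symm
  obtain ⟨j, hj1, hjk, hjfl⟩ := hkey
  have hdvd : j ∣ D := Nat.dvd_factorial (by omega) hjk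
  obtain ⟨e, he⟩ := hdvd
  have he1 : e ≤ D := by rw [he]; exact Nat.le_mul_of_pos_left _ (by omega)
  have hepos : 1 ≤ e := by
    rcases Nat.eq_zero_or_pos e with h0 | h0
    · rw [h0] at he; omega
    · exact h0
  obtain ⟨d, hd⟩ : ∃ d, D = e + d := ⟨D - e, by omega⟩
  have f1 : Flex A (e * (2 * t)) (z + d * (2 * t)) (e * (s + 2 * c0 + j * u)) := by
    apply Flex.nsmul
    refine hjfl.mono le_rfl ?_
    rw [hd]
    apply le_of_eq
    ring
  have f2 : Flex A (d * (2 * t)) z (d * (s + 2 * c0)) := by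
    apply Flex.nsmul
    refine hbase.mono le_rfl ?_
    rw [hd]
    nlinarith [Nat.zero_le (e * t)]
  have f3 := Flex.add f1 f2
  have e1 : e * (2 * t) + d * (2 * t) = 2 * t * D := by rw [hd]; ring
  have e2 : e * (s + 2 * c0 + j * u) + d * (s + 2 * c0) = D * (s + 2 * c0) + D * u := by
    have : D * (s + 2 * c0) + D * u = (e + d) * (s + 2 * c0) + (j * e) * u := by
      rw [← he, ← hd]
    rw [this]; ring
  rw [e1, e2] at f3
  exact f3

end Pool.Agent.H5.RO
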