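import Mathlib
import Pool.Agent.H5.RO4

set_option autoImplicit false

namespace Pool.Agent.H5.RO

open Finset

/-- The inductive statement. -/
theorem step (A : Set ℕ) (h n0 : ℕ) (hA : ∀ n ≥ n0, ∃ s, Rep A h n s) :
    ∀ m L q z : ℕ, ∃ D T C K N0 : ℕ, 1 ≤ D ∧ 1 ≤ K ∧ ∀ N ≥ N0, ∀ S X : Finset ℕ, S.card ≤ L →
      X ⊆ range (N + 1) → N ≤ q * X.card →
      (∀ x ∈ X, ∃ s ∈ S, ∃ a : Multiset ℕ, Multiset.card a ≤ m ∧ (∀ b ∈ a, b ∈ A) ∧
        x = s + a.sum) →
      ∃ F ≤ C * N, ∀ u, K * u ≤ N → Flex A T z (F + D * u) := by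
  classical
  intro m
  induction m with
  | zero =>
    intro L q z
    refine ⟨1, 0, 0, 1, q * L + 1, le_rfl, le_rfl, fun N hN S X hS _ hq hX => ?_⟩
    exfalso
    have h1 : X ⊆ S := by
      intro x hx
      obtain ⟨s, hs, a, ha, _, hxa⟩ := hX x hx
      have : a = 0 := by
        rw [← Multiset.card_eq_zero]; omega
      rw [this] at hxa
      simp at hxa
      rw [hxa]; exact hs
    have h2 := card_le_card h1
    have h3 : q * X.card ≤ q * L := Nat.mul_le_mul_left _ (h2.trans hS)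
    omega
  | succ m ih =>
    intro L q z
    -- parameters for the good case
    set q1 := 2 * q * L with hq1
    set k := 9 * q1 ^ 2 with hk
    set D1 := k.factorial with hD1
    set t1 := 4 * h + 1 with ht1
    set t := (m + 1) * t1 with ht
    set zC := z + 2 * t * (D1 + 1) with hzC
    obtain ⟨LA, NA, hclaim⟩ := claimA A h n0 hA (zC + (m + 1) * t1)
    obtain ⟨D2, T2, C2, K2, N2, hD2, hK2, hih⟩ := ih (L * LA) (2 * q) z
    have hD1pos : 1 ≤ D1 := Nat.factorial_pos k
    refine ⟨D1 * D2, max (2 * t * D1) T2, max (D1 * (2 + 4 * (m + 1))) C2,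
      max (k * D2) (K2 * D1), NA + N2 + 1, Nat.mul_pos hD1pos hD2,
      (Nat.mul_pos hK2 hD1pos).trans_le (le_max_right _ _),
      fun N hN S X hS hXr hq hX => ?_⟩
    obtain ⟨s, hs, hsfl, E, hE, hEfl⟩ := hclaim N (by omega)
    -- choose representations
    have hch : ∀ x, ∃ p : ℕ × Multiset ℕ, x ∈ X → (p.1 ∈ S ∧ Multiset.card p.2 ≤ m + 1 ∧
        (∀ b ∈ p.2, b ∈ A) ∧ x = p.1 + p.2.sum) := by
      intro x
      by_cases hx : x ∈ X
      · obtain ⟨s', hs', a, ha⟩ := hX x hx
        exact ⟨(s', a), fun _ => ⟨hs', ha⟩⟩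
      · exact ⟨(0, 0), fun h => absurd h hx⟩
    choose r hr using hch
    set Xb := X.filter (fun x => ∃ b ∈ (r x).2, b ∈ E) with hXb
    set Xg := X.filter (fun x => ¬ ∃ b ∈ (r x).2, b ∈ E) with hXg
    have hsplit : Xb.card + Xg.card = X.card := by
      rw [hXb, hXg, Finset.card_filter_add_card_filter_not]
    by_cases hcase : N ≤ 2 * q * Xb.card
    · -- bad case: use the induction hypothesis
      obtain ⟨F, hF, hFu⟩ := hih N (by omega) (Finset.image₂ (fun a b => a + b) S E) Xb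
        ((Finset.card_image₂_le _ _ _).trans (Nat.mul_le_mul hS hE))
        ((filter_subset _ _).trans hXr) hcase (by
          intro x hx
          rw [hXb, mem_filter] at hx
          obtain ⟨hxX, b, hb, hbE⟩ := hx
          obtain ⟨g1, g2, g3, g4⟩ := hr x hxX
          refine ⟨(r x).1 + b, ?_, (r x).2.erase b, ?_, ?_, ?_⟩
          · rw [Finset.mem_image₂]
            exact ⟨_, g1, _, hbE, rfl⟩
          · rw [Multiset.card_erase_of_mem hb]
            have : Multiset.card (r x).2 ≤ m + 1 := g2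
            simp only [Nat.pred_eq_sub_one]
            omega
          · intro c hc
            exact g3 c (Multiset.mem_of_mem_erase hc)
          · have h1 : b + ((r x).2.erase b).sum = (r x).2.sum := by
              rw [← Multiset.sum_cons, Multiset.cons_erase hb]
            omega)
      refine ⟨F, hF.trans (Nat.mul_le_mul_right _ (le_max_right _ _)), fun u hu => ?_⟩
      have h1 : K2 * (D1 * u) ≤ N := by
        calc K2 * (D1 * u) = (K2 * D1) * u := by ring
          _ ≤ max (k * D2) (K2 * D1) * u := Nat.mul_le_mul_right _ (le_max_right _ _)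
          _ ≤ N := hu
      have h2 := (hFu (D1 * u) h1).mono (le_max_right (2 * t * D1) T2) le_rfl
      have e : F + D2 * (D1 * u) = F + D1 * D2 * u := by ring
      rwa [e] at h2
    · -- good case
      push Not at hcase
      have hg : N ≤ 2 * q * Xg.card := by
        have h1 : 2 * N ≤ 2 * q * Xb.card + 2 * q * Xg.card := by
          calc 2 * N ≤ 2 * (q * X.card) := Nat.mul_le_mul_left _ hq
            _ = 2 * q * (Xb.card + Xg.card) := by rw [hsplit]; ring
            _ = _ := by ring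
        omega
      set Δ := Xg.image (fun x => (r x).2.sum) with hΔ
      have hXgle : Xg.card ≤ L * Δ.card := by
        have h1 : Xg ⊆ Finset.image₂ (fun a b => a + b) S Δ := by
          intro x hx
          have hx' := hx
          rw [hXg, mem_filter] at hx
          obtain ⟨g1, g2, g3, g4⟩ := hr x hx.1
          rw [Finset.mem_image₂]
          exact ⟨_, g1, _, mem_image_of_mem _ hx', g4.symm⟩
        exact (card_le_card h1).trans
          ((Finset.card_image₂_le _ _ _).trans (Nat.mul_le_mul_right _ hS))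
      have hΔq : N ≤ q1 * Δ.card := by
        calc N ≤ 2 * q * Xg.card := hg
          _ ≤ 2 * q * (L * Δ.card) := Nat.mul_le_mul_left _ hXgle
          _ = q1 * Δ.card := by rw [hq1]; ring
      have hΔr : Δ ⊆ range (N + 1) := by
        intro y hy
        rw [hΔ, mem_image] at hy
        obtain ⟨x, hx, rfl⟩ := hy
        rw [hXg, mem_filter] at hx
        obtain ⟨g1, g2, g3, g4⟩ := hr x hx.1
        have := hXr hx.1
        rw [mem_range] at *
        omega
      have hΔfl : ∀ δ ∈ Δ, Flex A t (z + 2 * t * ((9 * q1 ^ 2).factorial + 1))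
          (δ + (m + 1) * s) := by
        intro δ hδ
        rw [hΔ, mem_image] at hδ
        obtain ⟨x, hx, rfl⟩ := hδ
        rw [hXg, mem_filter] at hx
        obtain ⟨g1, g2, g3, g4⟩ := hr x hx.1
        have hxr := hXr hx.1
        rw [mem_range] at hxr
        apply Flex.multiset_pad (m + 1) (r x).2 ?_ hsfl g2
        intro a ha
        apply hEfl a (g3 a ha)
        · have := Multiset.le_sum_of_mem ha
          omega
        · intro haE
          exact hx.2 ⟨a, ha, haE⟩
      obtain ⟨s', hs', hfin⟩ := claimC A t z ((m + 1) * s) q1 N Δ (by omega) hΔr hΔq hΔfl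
      refine ⟨D1 * (s' + 2 * ((m + 1) * s)), ?_, fun u hu => ?_⟩
      · have h1 : s' + 2 * ((m + 1) * s) ≤ (2 + 4 * (m + 1)) * N := by
          have : 2 * ((m + 1) * s) ≤ 2 * ((m + 1) * (2 * N)) := by gcongr
          calc s' + 2 * ((m + 1) * s) ≤ 2 * N + 2 * ((m + 1) * (2 * N)) := by omega
            _ = (2 + 4 * (m + 1)) * N := by ring
        calc D1 * (s' + 2 * ((m + 1) * s)) ≤ D1 * ((2 + 4 * (m + 1)) * N) :=
              Nat.mul_le_mul_left _ h1
          _ = (D1 * (2 + 4 * (m + 1))) * N := by ring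
          _ ≤ _ := Nat.mul_le_mul_right _ (le_max_left _ _)
      · have h1 : 9 * q1 ^ 2 * (D2 * u) ≤ N := by
          calc 9 * q1 ^ 2 * (D2 * u) = (k * D2) * u := by rw [hk]; ring
            _ ≤ max (k * D2) (K2 * D1) * u := Nat.mul_le_mul_right _ (le_max_left _ _)
            _ ≤ N := hu
        have h2 := (hfin (D2 * u) h1).mono (le_max_left (2 * t * D1) T2) le_rfl
        have e : (9 * q1 ^ 2).factorial * (s' + 2 * ((m + 1) * s)) +
            (9 * q1 ^ 2).factorial * (D2 * u) = D1 * (s' + 2 * ((m + 1) * s)) + D1 * D2 * u := by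
          rw [hD1, hk]; ring
        rwa [e] at h2

/-- Theorem T1: around a point of size `O(N)`, all multiples of `D` in a long interval are
flexible. -/
theorem flex_interval (A : Set ℕ) (h n0 : ℕ) (hA : ∀ n ≥ n0, ∃ s, Rep A h n s) (z : ℕ) :
    ∃ D T C K N0 : ℕ, 1 ≤ D ∧ 1 ≤ K ∧ ∀ N ≥ N0, ∃ F ≤ C * N, ∀ u, K * u ≤ N →
      Flex A T z (F + D * u) := by
  classical
  obtain ⟨D, T, C, K, N0, hD, hK, hst⟩ := step A h n0 hA h 1 2 z
  refine ⟨D, T, C, K, N0 + 2 * n0, hD, hK, fun N hN => ?_⟩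
  refine hst N (by omega) {0} (Finset.Icc n0 N) (by simp) ?_ ?_ ?_
  · intro x hx
    rw [Finset.mem_Icc] at hx
    rw [mem_range]; omega
  · rw [Nat.card_Icc]; omega
  · intro x hx
    rw [Finset.mem_Icc] at hx
    obtain ⟨s, h1, h2, h3⟩ := hA x hx.1
    exact ⟨0, by simp, s, h1, h2, by omega⟩

/-- replacing elements by distinct ones in the same residue classes -/
theorem distinct_residues (A : Set ℕ) (D : ℕ) (s : Multiset ℕ)
    (hs : ∀ x ∈ s, {a | a ∈ A ∧ a % D = x % D}.Infinite) :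
    ∃ W : Finset ℕ, (↑W : Set ℕ) ⊆ A ∧ W.card ≤ Multiset.card s ∧
      W.sum id % D = s.sum % D := by
  classical
  induction s using Multiset.induction_on with
  | empty => exact ⟨∅, by simp, by simp, by simp⟩
  | cons x s ih =>
    obtain ⟨W, h1, h2, h3⟩ := ih (fun y hy => hs y (Multiset.mem_cons_of_mem hy))
    have hinf := hs x (Multiset.mem_cons_self x s)
    obtain ⟨a, ha, haW⟩ := hinf.exists_notMem_finset W
    refine ⟨insert a W, ?_, ?_, ?_⟩
    · rw [coe_insert]
      exact Set.insert_subset ha.1 h1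
    · rw [card_insert_of_notMem haW, Multiset.card_cons]; omega
    · rw [sum_insert haW, Multiset.sum_cons]
      have h4 : (id a) % D = x % D := ha.2
      rw [Nat.add_mod, h4, h3, ← Nat.add_mod]

/-- all residues are restricted sums -/
theorem all_residues (A : Set ℕ) (h : ℕ)
    (hst : ∀ F : Finset ℕ, ∃ N : ℕ, ∀ n ≥ N, ∃ s : Multiset ℕ,
        Multiset.card s ≤ h ∧ (∀ x ∈ s, x ∈ A ∧ x ∉ F) ∧ s.sum = n) (D : ℕ) (hD : 1 ≤ D) (r : ℕ) :
    ∃ W : Finset ℕ, (↑W : Set ℕ) ⊆ A ∧ W.card ≤ h ∧ W.sum id % D = r % D := by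
  classical
  -- the elements of A in classes meeting A finitely often
  have hfin : {a | a ∈ A ∧ ¬ {b | b ∈ A ∧ b % D = a % D}.Infinite}.Finite := by
    have : {a | a ∈ A ∧ ¬ {b | b ∈ A ∧ b % D = a % D}.Infinite} ⊆
        ⋃ c ∈ {c | c < D ∧ {b | b ∈ A ∧ b % D = c}.Finite}, {b | b ∈ A ∧ b % D = c} := by
      rintro a ⟨haA, ha⟩
      rw [Set.not_infinite] at ha
      simp only [Set.mem_iUnion]
      exact ⟨a % D, ⟨Nat.mod_lt _ hD, ha⟩, haA, rfl⟩
    refine Set.Finite.subset ?_ this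
    apply Set.Finite.biUnion
    · exact (Set.finite_lt_nat D).subset (fun c hc => hc.1)
    · intro c hc; exact hc.2
  obtain ⟨N, hN⟩ := hst hfin.toFinset
  obtain ⟨s, hs1, hs2, hs3⟩ := hN (r + D * N) (by nlinarith)
  obtain ⟨W, h1, h2, h3⟩ := distinct_residues A D s (by
    intro x hx
    have h4 := hs2 x hx
    by_contra hcon
    apply h4.2
    rw [Set.Finite.mem_toFinset]
    exact ⟨h4.1, hcon⟩)
  refine ⟨W, h1, h2.trans hs1, ?_⟩
  rw [h3, hs3]
  simp

/-- The main theorem. -/
theorem main (A : Set ℕ) (h : ℕ)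
    (hst : ∀ F : Finset ℕ, ∃ N : ℕ, ∀ n ≥ N, ∃ s : Multiset ℕ,
        Multiset.card s ≤ h ∧ (∀ x ∈ s, x ∈ A ∧ x ∉ F) ∧ s.sum = n) :
    ∃ t : ℕ, ∃ N : ℕ, ∀ n ≥ N, ∃ s : Finset ℕ,
        s.card ≤ t ∧ (↑s : Set ℕ) ⊆ A ∧ s.sum id = n := by
  classical
  obtain ⟨n0, hn0⟩ := hst ∅
  have hA : ∀ n ≥ n0, ∃ s, Rep A h n s := by
    intro n hn
    obtain ⟨s, h1, h2, h3⟩ := hn0 n hn
    exact ⟨s, h1, fun x hx => (h2 x hx).1, h3⟩
  obtain ⟨D, T, C, K, N1, hD, hK, hint⟩ := flex_interval A h n0 hA h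
  choose W hW1 hW2 hW3 using all_residues A h hst D hD
  set B0 := ∑ r ∈ range D, (W r).sum id with hB0
  have hB : ∀ r, r < D → (W r).sum id ≤ B0 := by
    intro r hr
    rw [hB0]
    exact Finset.single_le_sum (f := fun r => (W r).sum id) (fun i _ => Nat.zero_le _)
      (mem_range.mpr hr)
  -- coarse approximations with precision N / p
  set p := 8 * K * (C + 1) with hp
  obtain ⟨tc, N2, hco⟩ := coarse A h n0 hA (T + h) p (by
    rw [hp]
    have : 1 * 1 ≤ K * (C + 1) := Nat.mul_le_mul hK (by omega)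
    nlinarith)
  refine ⟨h + T + tc, 4 * (C + 1) * (N1 + N2 + B0 * K * 2 + B0 + 4) , fun n hn => ?_⟩
  -- scale
  set N := n / (2 * (C + 1)) with hN
  have hNbig : N1 + N2 + B0 * K * 2 + B0 + 4 ≤ N := by
    rw [hN, Nat.le_div_iff_mul_le (by omega)]
    nlinarith
  have hNn : 2 * (C + 1) * N ≤ n := by rw [hN]; exact Nat.mul_div_le n (2 * (C + 1))
  have hnN : n ≤ 4 * (C + 1) * N := by
    have h1 := Nat.div_add_mod n (2 * (C + 1))
    have h2 := Nat.mod_lt n (y := 2 * (C + 1)) (by omega)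
    rw [← hN] at h1
    have h3 : 2 * (C + 1) * 1 ≤ 2 * (C + 1) * N := Nat.mul_le_mul_left _ (by omega)
    nlinarith
  obtain ⟨F, hF, hFu⟩ := hint N (by omega)
  have hFn : F + 2 * N ≤ n := by
    have : 2 * (C + 1) * N = C * N + C * N + 2 * N := by ring
    omega
  -- coarse sum
  have hBn : F + B0 ≤ n := by omega
  obtain ⟨b, hbfl, hbm, hbp⟩ := hco n (by
    have : N ≤ n := by omega
    omega) (n - F - B0) (by omega)
  -- residue
  set e := n - F - b with he
  set r := e % D with hr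
  have hrD : r < D := Nat.mod_lt _ hD
  have hWr := hB r hrD
  have hWe : (W r).sum id ≤ e := by omega
  have hmod : (e - (W r).sum id) % D = 0 := by
    have h1 := hW3 r
    rw [hr, Nat.mod_mod] at h1
    exact Nat.sub_mod_eq_zero_of_mod_eq (by rw [← hr] at h1 ⊢; exact h1.symm)
  obtain ⟨u, hu⟩ : ∃ u, e - (W r).sum id = D * u := by
    obtain ⟨u, hu⟩ := Nat.dvd_of_mod_eq_zero hmod
    exact ⟨u, hu⟩
  have hue : u ≤ e := by
    have : 1 * u ≤ D * u := Nat.mul_le_mul_right _ hD
    omega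
  have heB : p * (e - B0) ≤ n := by
    have : n - F - B0 - b = e - B0 := by omega
    rw [this] at hbp
    exact hbp
  have hKu : K * u ≤ N := by
    -- 8 K (C+1) (e - B0) ≤ n ≤ 4 (C+1) N
    have h1 : 2 * (K * (e - B0)) * (4 * (C + 1)) ≤ N * (4 * (C + 1)) := by
      calc 2 * (K * (e - B0)) * (4 * (C + 1)) = p * (e - B0) := by rw [hp]; ring
        _ ≤ n := heB
        _ ≤ 4 * (C + 1) * N := hnN
        _ = N * (4 * (C + 1)) := by ring
    have h2 : 2 * (K * (e - B0)) ≤ N := Nat.le_of_mul_le_mul_right h1 (by omega)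
    have h3 : K * u ≤ K * e := Nat.mul_le_mul_left _ hue
    have h4 : K * e ≤ K * (e - B0) + K * B0 := by
      rw [← mul_add]; exact Nat.mul_le_mul_left _ (by omega)
    have h5 : B0 * K * 2 ≤ N := by omega
    have h6 : K * B0 = B0 * K := by ring
    omega
  have hfl := hFu u hKu
  -- assemble
  obtain ⟨V, v1, v2, v3, v4⟩ := hfl (W r) (hW2 r)
  obtain ⟨U, u1, u2, u3, u4⟩ := hbfl (W r ∪ V) ((card_union_le _ _).trans (by
    have := hW2 r
    omega))
  rw [disjoint_union_right] at u2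
  refine ⟨(W r ∪ V) ∪ U, ?_, ?_, ?_⟩
  · refine (card_union_le _ _).trans ?_
    have h1 := card_union_le (W r) V
    have h2 := hW2 r
    omega
  · rw [coe_union, coe_union]
    exact Set.union_subset (Set.union_subset (hW1 r) v1) u1
  · rw [sum_union, sum_union v2.symm, v4, u4]
    · have h0 : ∑ x ∈ W r, id x = (W r).sum id := rfl
      omega
    · rw [disjoint_union_left]
      exact ⟨u2.1.symm, u2.2.symm⟩

end Pool.Agent.H5.RO
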